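import Pool.Agent.Lib.MP_e47d8d_al.PFinal

/-- Let `Γ` be the group of outer automorphisms of `F_N` that fix the conjugacy classes of the
first `k` generators and `d = 2N - 2 - max 1 k`. Then `H^d(Γ; ℤΓ)` is free abelian. -/
theorem Pool.Agent.Results.MP_e47d8d_al.PartiallySymmetric.result (N k : ℕ) (hN : 2 ≤ N)
    (hk : k ≤ N) (Γ : Type) [Group Γ] (f : Γ →* OutFn.Out (FreeGroup (Fin N)))
    (hf : Function.Injective f)
    (hr : ∀ φ : MulAut (FreeGroup (Fin N)), QuotientGroup.mk φ ∈ f.range ↔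
      ∀ i : Fin N, i.val < k → IsConj (FreeGroup.of i) (φ (FreeGroup.of i))) :
    Module.Free ℤ (groupCohomology (Rep.leftRegular ℤ Γ) (2 * N - 2 - max 1 k)) :=
  (OutFn.partially_symmetric N k hN hk Γ f hf hr).1
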